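import Pool.Agent.H11.NY.Targets

/-!
# Board ny_modules, AC1: the algebra generated by a section which is abelian modulo scalars
-/

set_option autoImplicit false

namespace Pool.Agent.H87.NY.AC1

open Pool.Agent.H11.NY

/-- separating simultaneous eigenvectors -/
theorem sep {K W ι : Type} [Field K] [AddCommGroup W] [Module K W] [DecidableEq ι]
    (v : ι → W) (Φ : Set (W →ₗ[K] W)) (hΦ : ∀ φ ∈ Φ, ∀ b, ∃ z : K, φ (v b) = z • v b)
    (hsep : ∀ b b', b ≠ b' → ∃ φ ∈ Φ, ∀ z z' : K, φ (v b) = z • v b → φ (v b') = z' • v b' →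
      z ≠ z')
    (I : Submodule K W) (hI : ∀ φ ∈ Φ, ∀ x ∈ I, φ x ∈ I) :
    ∀ (n : ℕ) (F : Finset ι), F.card = n → ∀ c : ι → K, (∑ b ∈ F, c b • v b) ∈ I →
      ∀ b ∈ F, c b • v b ∈ I := by
  intro n
  induction n with
  | zero =>
    intro F hF c _ b hb
    rw [Finset.card_eq_zero] at hF
    subst hF
    exact absurd hb (Finset.notMem_empty b)
  | succ n ih =>
    intro F hF c hx b hb
    by_cases h1 : ∃ b' ∈ F, b' ≠ b
    · obtain ⟨b', hb', hne⟩ := h1
      obtain ⟨φ, hφ, hz⟩ := hsep b b' (Ne.symm hne)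
      choose z hzv using hΦ φ hφ
      have hzz : z b ≠ z b' := hz _ _ (hzv b) (hzv b')
      have h2 : (∑ a ∈ F.erase b', (c a * (z a - z b')) • v a) ∈ I := by
        have h4 : (∑ a ∈ F.erase b', (c a * (z a - z b')) • v a)
            = φ (∑ a ∈ F, c a • v a) - z b' • (∑ a ∈ F, c a • v a) := by
          rw [map_sum, Finset.smul_sum, ← Finset.sum_sub_distrib]
          have h5 : ∀ a ∈ F, φ (c a • v a) - z b' • c a • v a = (c a * (z a - z b')) • v a := by
            intro a _
            rw [map_smul, hzv, smul_smul, smul_smul, ← sub_smul]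
            congr 1
            ring
          rw [Finset.sum_congr rfl h5, ← Finset.add_sum_erase F _ hb', sub_self, mul_zero,
            zero_smul, zero_add]
        rw [h4]
        exact I.sub_mem (hI φ hφ _ hx) (I.smul_mem _ hx)
      have h3 := ih (F.erase b') (by rw [Finset.card_erase_of_mem hb', hF]; rfl) _ h2 b
        (Finset.mem_erase.2 ⟨Ne.symm hne, hb⟩)
      have h6 : c b • v b = (z b - z b')⁻¹ • ((c b * (z b - z b')) • v b) := by
        rw [smul_smul]
        congr 1
        have h7 : z b - z b' ≠ 0 := sub_ne_zero.2 hzz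
        field_simp
      rw [h6]
      exact I.smul_mem _ h3
    · push Not at h1
      have h2 : F = {b} := Finset.eq_singleton_iff_unique_mem.2 ⟨hb, h1⟩
      rw [h2, Finset.sum_singleton] at hx
      exact hx

/-- the algebra spanned by a group which is abelian modulo scalars -/
theorem algebra_part {K A G : Type} [Field K] [IsAlgClosed K] [Ring A] [Algebra K A]
    [Nontrivial A] [Group G] [Finite G] (u : G →* A) (Z : Subgroup G)
    (hspan : ∀ a : A, a ∈ Submodule.span K (Set.range u))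
    (hZ : ∀ x ∈ Z, ∃ z : K, u x = algebraMap K A z)
    (hcom : ∀ x y : G, x * y * x⁻¹ * y⁻¹ ∈ Z)
    (hfaith : ∀ x : G, (∀ y : G, u x * u y = u y * u x) → x ∈ Z) :
    ∃ d : ℕ, 0 < d ∧ Nonempty (A ≃ₐ[K] Matrix (Fin d) (Fin d) K) ∧
      Nat.card G = d * d * Nat.card Z := by
  classical
  have hinv : ∀ x : G, u x * u x⁻¹ = 1 := fun x => by rw [← map_mul, mul_inv_cancel, map_one]
  have hinv' : ∀ x : G, u x⁻¹ * u x = 1 := fun x => by rw [← map_mul, inv_mul_cancel, map_one]
  have hne : ∀ x : G, u x ≠ 0 := by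
    intro x hx
    have := hinv x
    rw [hx, zero_mul] at this
    exact zero_ne_one this
  let k : G ⧸ Z → G := Quotient.out
  have hk : ∀ b : G ⧸ Z, (QuotientGroup.mk (k b) : G ⧸ Z) = b := fun b => QuotientGroup.out_eq' b
  let v : G ⧸ Z → A := fun b => u (k b)
  let cj : G → (A →ₗ[K] A) := fun y => (LinearMap.mulLeft K (u y)).comp (LinearMap.mulRight K (u y⁻¹))
  have hcj : ∀ (y : G) (a : A), cj y a = u y * (a * u y⁻¹) := fun y a => rfl
  let Φ : Set (A →ₗ[K] A) := Set.range cj
  have hΦ : ∀ φ ∈ Φ, ∀ b, ∃ z : K, φ (v b) = z • v b := by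
    rintro _ ⟨y, rfl⟩ b
    obtain ⟨z, hz⟩ := hZ _ (hcom y (k b))
    refine ⟨z, ?_⟩
    rw [hcj, Algebra.smul_def, ← hz]
    change u y * (u (k b) * u y⁻¹) = u (y * k b * y⁻¹ * (k b)⁻¹) * u (k b)
    rw [← map_mul, ← map_mul, ← map_mul]
    congr 1
    group
  have hsep : ∀ b b', b ≠ b' → ∃ φ ∈ Φ, ∀ z z' : K, φ (v b) = z • v b → φ (v b') = z' • v b' →
      z ≠ z' := by
    intro b b' hbb
    by_contra hcon
    push Not at hcon
    apply hbb
    have hmem : (k b)⁻¹ * k b' ∈ Z := by
      apply hfaith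
      intro y
      obtain ⟨z, z', h1, h2, rfl⟩ := hcon (cj y) ⟨y, rfl⟩
      rw [hcj] at h1 h2
      have hz0 : z ≠ 0 := by
        rintro rfl
        rw [zero_smul] at h1
        have h3 : u (y * (k b * y⁻¹)) = 0 := by rw [map_mul, map_mul]; exact h1
        exact hne _ h3
      have h3 : u y * (u (k b) * u y⁻¹) * (u y * (u ((k b)⁻¹ * k b') * u y⁻¹))
          = z • (u (k b) * u ((k b)⁻¹ * k b')) := by
        rw [← map_mul u (k b) ((k b)⁻¹ * k b'), mul_inv_cancel_left]
        refine Eq.trans ?_ h2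
        change u y * (u (k b) * u y⁻¹) * (u y * (u ((k b)⁻¹ * k b') * u y⁻¹))
          = u y * (u (k b') * u y⁻¹)
        simp only [← map_mul]
        congr 1
        group
      rw [h1, smul_mul_assoc] at h3
      have h4 := smul_right_injective A hz0 h3
      have h5 : u y * (u ((k b)⁻¹ * k b') * u y⁻¹) = u ((k b)⁻¹ * k b') := by
        have h6 := congrArg (fun a => u (k b)⁻¹ * a) h4
        simp only [← mul_assoc] at h6
        change u (k b)⁻¹ * u (k b) * u y * u ((k b)⁻¹ * k b') * u y⁻¹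
          = u (k b)⁻¹ * u (k b) * u ((k b)⁻¹ * k b') at h6
        rw [hinv', one_mul, one_mul] at h6
        rw [← mul_assoc]
        exact h6
      have h7 := congrArg (fun a => a * u y) h5
      simp only [mul_assoc, hinv', mul_one] at h7
      exact h7.symm
    rw [← hk b, ← hk b']
    exact QuotientGroup.eq.2 hmem
  -- spanning
  have hsp : ∀ a : A, a ∈ Submodule.span K (Set.range v) := by
    intro a
    refine Submodule.span_le.2 ?_ (hspan a)
    rintro _ ⟨x, rfl⟩
    have h1 : (k (QuotientGroup.mk x))⁻¹ * x ∈ Z := QuotientGroup.eq.1 (hk _)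
    obtain ⟨z, hz⟩ := hZ _ h1
    have h2 : u x = z • v (QuotientGroup.mk x) := by
      rw [Algebra.smul_def, Algebra.commutes, ← hz]
      change u x = u (k (QuotientGroup.mk x)) * u ((k (QuotientGroup.mk x))⁻¹ * x)
      rw [← map_mul, mul_inv_cancel_left]
    rw [h2]
    exact Submodule.smul_mem _ _ (Submodule.subset_span ⟨_, rfl⟩)
  have : Fintype (G ⧸ Z) := Fintype.ofFinite _
  -- linear independence
  have hli : LinearIndependent K v := by
    rw [linearIndependent_iff']
    intro F g hg b hb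
    have h1 := sep v Φ hΦ hsep ⊥ (by
      intro φ _ x hx
      rw [Submodule.mem_bot] at hx ⊢
      rw [hx, map_zero]) F.card F rfl g (by rw [hg]; exact Submodule.zero_mem _) b hb
    rw [Submodule.mem_bot, smul_eq_zero] at h1
    exact h1.resolve_right (hne _)
  let B : Module.Basis (G ⧸ Z) K A := Module.Basis.mk hli (fun a _ => hsp a)
  have hfin : Module.Finite K A := Module.Finite.of_basis B
  have hrank : Module.finrank K A = Fintype.card (G ⧸ Z) := Module.finrank_eq_card_basis B
  -- simplicity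
  have hsimple : IsSimpleRing A := by
    refine IsSimpleRing.of_eq_bot_or_eq_top (fun I => ?_)
    rw [or_iff_not_imp_left, ← I.one_mem_iff]
    intro hI
    obtain ⟨x, hx, hx0⟩ := SetLike.exists_of_lt (bot_lt_iff_ne_bot.mpr hI : ⊥ < I)
    have hx0 : x ≠ 0 := hx0
    let I' : Submodule K A :=
      { carrier := {x | x ∈ I}
        add_mem' := fun {a b} ha hb => I.add_mem ha hb
        zero_mem' := I.zero_mem
        smul_mem' := fun c a ha => by
          change c • a ∈ I
          rw [Algebra.smul_def]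
          exact I.mul_mem_left _ _ ha }
    obtain ⟨c, hc⟩ := (Submodule.mem_span_range_iff_exists_fun K).1 (hsp x)
    have h1 : ∀ b ∈ (Finset.univ : Finset (G ⧸ Z)), c b • v b ∈ I' :=
      sep v Φ hΦ hsep I' (by
        rintro _ ⟨y, rfl⟩ a ha
        rw [hcj]
        exact I.mul_mem_left _ _ (I.mul_mem_right _ _ ha)) _ Finset.univ rfl c
        (by rw [hc]; exact hx)
    obtain ⟨b, hb⟩ : ∃ b, c b • v b ≠ 0 := by
      by_contra hcon
      push Not at hcon
      apply hx0
      rw [← hc]
      exact Finset.sum_eq_zero (fun b _ => hcon b)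
    have hcb : c b ≠ 0 := by
      rintro h
      rw [h, zero_smul] at hb
      exact hb rfl
    have h2 : c b • v b ∈ I := h1 b (Finset.mem_univ _)
    have h3 : (1 : A) = (algebraMap K A (c b)⁻¹ * u (k b)⁻¹) * (c b • v b) := by
      rw [Algebra.smul_def, mul_assoc, ← mul_assoc (u (k b)⁻¹), ← Algebra.commutes (c b),
        mul_assoc (algebraMap K A (c b)), ← mul_assoc (algebraMap K A (c b)⁻¹), ← map_mul,
        inv_mul_cancel₀ hcb, map_one, one_mul]
      exact (hinv' (k b)).symm
    rw [h3]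
    exact I.mul_mem_left _ _ h2
  obtain ⟨d, hd, ⟨e⟩⟩ := IsSimpleRing.exists_algEquiv_matrix_of_isAlgClosed K A
  refine ⟨d, Nat.pos_of_ne_zero hd.out, ⟨e⟩, ?_⟩
  have h1 : Module.finrank K A = d * d := by
    rw [e.toLinearEquiv.finrank_eq, Module.finrank_matrix, Fintype.card_fin, Module.finrank_self,
      mul_one]
  rw [Subgroup.card_eq_card_quotient_mul_card_subgroup Z, Nat.card_eq_fintype_card, ← hrank, h1]

theorem pf_ac1 : T_AC1 := by
  intro L _ _ K V _ _ _ _ _ ρ hV M Z hM hZM hZ hcom hfaith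
  classical
  let S : Submonoid (Module.End K V) := M.toSubmonoid.map ρ
  let A : Subalgebra K (Module.End K V) := Algebra.adjoin K (S : Set (Module.End K V))
  have hAs : Subalgebra.toSubmodule A = Submodule.span K {y | ∃ x ∈ M, y = ρ x} := by
    change Subalgebra.toSubmodule (Algebra.adjoin K (S : Set (Module.End K V))) = _
    rw [Algebra.adjoin_eq_span, Submonoid.closure_eq]
    congr 1
    ext y
    constructor
    · rintro ⟨x, hx, rfl⟩
      exact ⟨x, hx, rfl⟩
    · rintro ⟨x, hx, rfl⟩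
      exact ⟨x, hx, rfl⟩
  have huA : ∀ x : M, (ρ.comp M.subtype) x ∈ A := fun x =>
    Algebra.subset_adjoin ⟨x, x.2, rfl⟩
  let u : M →* A := (ρ.comp M.subtype).codRestrict A huA
  have hu : ∀ x : M, ((u x : A) : Module.End K V) = ρ x := fun x => rfl
  have hnt : Nontrivial A := by
    obtain ⟨v, hv⟩ := hV
    refine ⟨⟨0, 1, fun h => hv ?_⟩⟩
    have h1 : (0 : Module.End K V) = 1 := congrArg (fun a : A => (a : Module.End K V)) h
    have h2 := congrArg (fun f : Module.End K V => f v) h1
    exact h2.symm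
  have hspan : ∀ a : A, a ∈ Submodule.span K (Set.range u) := by
    intro a
    have h1 : (a : Module.End K V) ∈ Submodule.span K {y | ∃ x ∈ M, y = ρ x} := by
      rw [← hAs]
      exact a.2
    have h2 : ∀ y ∈ Submodule.span K {y | ∃ x ∈ M, y = ρ x},
        ∃ w ∈ Submodule.span K (Set.range u), ((w : A) : Module.End K V) = y := by
      intro y hy
      induction hy using Submodule.span_induction with
      | mem y hy =>
        obtain ⟨x, hx, rfl⟩ := hy
        exact ⟨u ⟨x, hx⟩, Submodule.subset_span ⟨_, rfl⟩, rfl⟩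
      | zero => exact ⟨0, Submodule.zero_mem _, rfl⟩
      | add y z _ _ hy hz =>
        obtain ⟨w, hw, rfl⟩ := hy
        obtain ⟨w', hw', rfl⟩ := hz
        exact ⟨w + w', Submodule.add_mem _ hw hw', rfl⟩
      | smul c y _ hy =>
        obtain ⟨w, hw, rfl⟩ := hy
        exact ⟨c • w, Submodule.smul_mem _ _ hw, rfl⟩
    obtain ⟨w, hw, hwa⟩ := h2 _ h1
    rwa [Subtype.ext hwa] at hw
  have hscal : ∀ x ∈ Z.subgroupOf M, ∃ z : K, u x = algebraMap K A z := by
    intro x hx
    obtain ⟨z, hz⟩ := (hZ x x.2).1 hx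
    refine ⟨z, Subtype.ext ?_⟩
    rw [hu]
    refine LinearMap.ext (fun v => ?_)
    rw [hz v]
    rfl
  have hcom' : ∀ x y : M, x * y * x⁻¹ * y⁻¹ ∈ Z.subgroupOf M := by
    intro x y
    exact hcom x x.2 y y.2
  have hfaith' : ∀ x : M, (∀ y : M, u x * u y = u y * u x) → x ∈ Z.subgroupOf M := by
    intro x hx
    refine hfaith x x.2 (fun y hy => ?_)
    exact congrArg (fun a : A => (a : Module.End K V)) (hx ⟨y, hy⟩)
  obtain ⟨d, hd, ⟨e⟩, hcard⟩ := algebra_part (K := K) (A := A) (G := M) u (Z.subgroupOf M)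
    hspan hscal hcom' hfaith'
  refine ⟨d, A, e.trans Matrix.toLinAlgEquiv', hd, ?_, hAs⟩
  rw [hcard, Nat.card_congr (Subgroup.subgroupOfEquivOfLe hZM).toEquiv]

end Pool.Agent.H87.NY.AC1
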