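import Pool.Agent.H11.NY.Targets

/-!
# Board ny_modules, BG: an element with many cycles centralises little of a chief section
-/

set_option autoImplicit false

open Equiv (Perm)

namespace Pool.Agent.H87.NY.BG

open Pool.Agent.H11.NY

/-- an even permutation `g` such that `s` divides the order of `g τ g⁻¹ τ⁻¹` -/
theorem exists_even {Ω : Type} [Fintype Ω] [DecidableEq Ω] (τ : Perm Ω) {s : ℕ} (hs : s.Prime)
    (hs3 : 3 ≤ s) (hc : s ≤ τ.cycleFactorsFinset.card) :
    ∃ g ∈ alternatingGroup Ω, ∀ N : ℕ, (g * τ * g⁻¹ * τ⁻¹) ^ N = 1 → s ∣ N := by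
  classical
  obtain ⟨T, hT, hTc⟩ := Finset.exists_subset_card_eq hc
  have h1 : ∀ c ∈ T, ∃ ω, ω ∈ c.support := by
    intro c hcT
    have h2 := (Equiv.Perm.mem_cycleFactorsFinset_iff.1 (hT hcT)).1
    refine Finset.nonempty_iff_ne_empty.2 ?_
    rw [Ne, Equiv.Perm.support_eq_empty_iff]
    exact h2.ne_one
  choose p hp using h1
  have hdis : ∀ c c' : Perm Ω, c ∈ T → c' ∈ T → ∀ ω, ω ∈ c.support → ω ∈ c'.support → c = c' := by
    intro c c' h h' ω hω hω'
    by_contra hne
    have h2 := τ.cycleFactorsFinset_pairwise_disjoint (hT h) (hT h') hne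
    rw [Equiv.Perm.disjoint_iff_disjoint_support] at h2
    exact Finset.disjoint_left.1 h2 hω hω'
  let P : Finset Ω := T.attach.image (fun c => p c.1 c.2)
  have hPc : P.card = s := by
    rw [Finset.card_image_of_injective, Finset.card_attach, hTc]
    rintro ⟨c, h⟩ ⟨c', h'⟩ hcc
    have hcc' : p c h = p c' h' := hcc
    exact Subtype.ext (hdis c c' h h' _ (hp c h) (by rw [hcc']; exact hp c' h'))
  have hτP : ∀ ω ∈ P, τ ω ∉ P := by
    intro ω hω hω'
    obtain ⟨⟨c, h⟩, -, rfl⟩ := Finset.mem_image.1 hω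
    obtain ⟨⟨c', h'⟩, -, hcc⟩ := Finset.mem_image.1 hω'
    have hcc' : p c' h' = τ (p c h) := hcc
    have e1 : c (p c h) = τ (p c h) :=
      (Equiv.Perm.mem_cycleFactorsFinset_iff.1 (hT h)).2 _ (hp c h)
    have e2 : τ (p c h) ∈ c.support := by
      rw [← e1]
      exact Equiv.Perm.apply_mem_support.2 (hp c h)
    have e3 : c = c' := hdis c c' h h' _ e2 (by rw [← hcc']; exact hp c' h')
    subst e3
    have e4 : c (p c h) = p c h := by rw [e1]; exact hcc'.symm
    exact (Equiv.Perm.mem_support.1 (hp c h)) e4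
  obtain ⟨g, hg, hgs⟩ := P.exists_cycleOn
  have hfix : ∀ ω, ω ∉ P → g ω = ω := by
    intro ω hω
    by_contra hne
    exact hω (hgs (Equiv.Perm.mem_support.2 hne))
  have hgpow : g ^ s = 1 := by
    refine Equiv.ext (fun ω => ?_)
    by_cases hω : ω ∈ P
    · have := hg.pow_card_apply hω
      rw [hPc] at this
      exact this
    · exact Equiv.Perm.pow_apply_eq_self_of_apply_eq_self (hfix ω hω) s
  have heven : g ∈ alternatingGroup Ω := by
    rw [Equiv.Perm.mem_alternatingGroup]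
    have h2 : (Equiv.Perm.sign g) ^ s = 1 := by rw [← map_pow, hgpow, map_one]
    rcases Int.units_eq_one_or (Equiv.Perm.sign g) with h3 | h3
    · exact h3
    · exfalso
      rw [h3] at h2
      have hodd : Odd s := hs.odd_of_ne_two (by omega)
      rw [hodd.neg_one_pow] at h2
      exact absurd h2 (by decide)
  refine ⟨g, heven, fun N hN => ?_⟩
  have hact : ∀ ω ∈ P, (g * τ * g⁻¹ * τ⁻¹) ω = g ω := by
    intro ω hω
    have h2 : τ⁻¹ ω ∉ P := by
      intro h3
      have h4 := hτP _ h3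
      have h5 : τ (τ⁻¹ ω) = ω := τ.apply_symm_apply ω
      rw [h5] at h4
      exact h4 hω
    have h3 : g⁻¹ (τ⁻¹ ω) = τ⁻¹ ω := by
      rw [Equiv.Perm.inv_eq_iff_eq, hfix _ h2]
    have h5 : τ (τ⁻¹ ω) = ω := τ.apply_symm_apply ω
    rw [Equiv.Perm.mul_apply, Equiv.Perm.mul_apply, Equiv.Perm.mul_apply, h3, h5]
  have hgP : ∀ ω ∈ P, g ω ∈ P := by
    intro ω hω
    exact (hg.apply_mem_iff).2 hω
  have hpow : ∀ (k : ℕ), ∀ ω ∈ P, ((g * τ * g⁻¹ * τ⁻¹) ^ k) ω = (g ^ k) ω ∧ (g ^ k) ω ∈ P := by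
    intro k
    induction k with
    | zero => intro ω hω; exact ⟨rfl, hω⟩
    | succ k ih =>
      intro ω hω
      obtain ⟨h2, h3⟩ := ih ω hω
      rw [pow_succ', pow_succ']
      change (g * τ * g⁻¹ * τ⁻¹) (((g * τ * g⁻¹ * τ⁻¹) ^ k) ω) = g ((g ^ k) ω) ∧ g ((g ^ k) ω) ∈ P
      rw [h2, hact _ h3]
      exact ⟨rfl, hgP _ h3⟩
  obtain ⟨ω, hω⟩ : P.Nonempty := by
    rw [← Finset.card_pos, hPc]
    omega
  have h2 := (hpow N ω hω).1
  rw [hN, Equiv.Perm.one_apply] at h2
  have h3 := (hg.pow_apply_eq hω).1 h2.symm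
  rwa [hPc] at h3

/-- the elements of `M` which commute with `g` modulo `Z` -/
def Cz {L : Type} [Group L] (M Z : Subgroup L) [Z.Normal] (g : L) : Subgroup L :=
  M ⊓ (Subgroup.centralizer {(QuotientGroup.mk' Z) g}).comap (QuotientGroup.mk' Z)

theorem mem_Cz {L : Type} [Group L] (M Z : Subgroup L) [Z.Normal] (g x : L) :
    x ∈ Cz M Z g ↔ x ∈ M ∧ g * x * g⁻¹ * x⁻¹ ∈ Z := by
  unfold Cz
  rw [Subgroup.mem_inf, Subgroup.mem_comap, Subgroup.mem_centralizer_singleton_iff]
  refine and_congr_right (fun _ => ?_)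
  rw [← QuotientGroup.eq_one_iff (g * x * g⁻¹ * x⁻¹)]
  constructor
  · intro h
    change (QuotientGroup.mk' Z) (g * x * g⁻¹ * x⁻¹) = 1
    rw [map_mul, map_mul, map_mul, map_inv, map_inv, ← h]
    group
  · intro h
    have h2 : (QuotientGroup.mk' Z) (g * x * g⁻¹ * x⁻¹) = 1 := h
    rw [map_mul, map_mul, map_mul, map_inv, map_inv, mul_inv_eq_one, mul_inv_eq_iff_eq_mul] at h2
    exact h2.symm

theorem pf_bg : T_BG := by
  intro L Ω _ _ _ _ ψ hψ M Z r hM hZ hZM hr hcom hrZ hcen b s hb hs hs3 hbs t hcyc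
  classical
  by_contra hcon
  rw [not_lt] at hcon
  -- the number of elements
  have hcardt : Nat.card {x : L // x ∈ M ∧ t * x * t⁻¹ * x⁻¹ ∈ Z} = Nat.card (Cz M Z t) :=
    Nat.card_congr (Equiv.subtypeEquivRight (fun x => (mem_Cz M Z t x).symm))
  rw [hcardt] at hcon
  obtain ⟨g, hg, hgN⟩ := exists_even (ψ t : Perm Ω) hs hs3 hcyc
  obtain ⟨x, hx⟩ := hψ ⟨g, hg⟩
  -- the conjugate
  have hconj : Nat.card (Cz M Z t) = Nat.card (Cz M Z (x * t * x⁻¹)) := by
    refine Nat.card_congr ((MulAut.conj x).toEquiv.subtypeEquiv (fun a => ?_))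
    change a ∈ Cz M Z t ↔ x * a * x⁻¹ ∈ Cz M Z (x * t * x⁻¹)
    rw [mem_Cz, mem_Cz]
    have e1 : x * t * x⁻¹ * (x * a * x⁻¹) * (x * t * x⁻¹)⁻¹ * (x * a * x⁻¹)⁻¹
        = x * (t * a * t⁻¹ * a⁻¹) * x⁻¹ := by group
    rw [e1]
    constructor
    · rintro ⟨h1, h2⟩
      exact ⟨hM.conj_mem _ h1 x, hZ.conj_mem _ h2 x⟩
    · rintro ⟨h1, h2⟩
      have h3 := hM.conj_mem _ h1 x⁻¹
      have h4 := hZ.conj_mem _ h2 x⁻¹
      have e2 : x⁻¹ * (x * a * x⁻¹) * x⁻¹⁻¹ = a := by group
      have e3 : x⁻¹ * (x * (t * a * t⁻¹ * a⁻¹) * x⁻¹) * x⁻¹⁻¹ = t * a * t⁻¹ * a⁻¹ := by group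
      rw [e2] at h3
      rw [e3] at h4
      exact ⟨h3, h4⟩
  have hle : ∀ u : L, Cz M Z u ≤ M := fun u => inf_le_left
  have hindex : ∀ u : L, Nat.card (Cz M Z u) = Nat.card (Cz M Z t) →
      ((Cz M Z u).subgroupOf M).index ≤ b := by
    intro u hu
    have h1 := Subgroup.card_mul_index ((Cz M Z u).subgroupOf M)
    rw [Nat.card_congr (Subgroup.subgroupOfEquivOfLe (hle u)).toEquiv, hu] at h1
    have h2 : 0 < Nat.card (Cz M Z t) := Nat.card_pos
    refine Nat.le_of_mul_le_mul_left ?_ h2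
    rw [h1, mul_comm]
    exact hcon
  have hZC : ∀ u : L, Z ≤ Cz M Z u := by
    intro u z hz
    rw [mem_Cz]
    refine ⟨hZM hz, ?_⟩
    exact Z.mul_mem (hZ.conj_mem _ hz u) (Z.inv_mem hz)
  have hnorm : ∀ D : Subgroup L, Z ≤ D → (D.subgroupOf M).Normal := by
    intro D hD
    refine ⟨fun a ha m => ?_⟩
    rw [Subgroup.mem_subgroupOf] at ha ⊢
    have h1 := hD (hcom m m.2 a a.2)
    have h2 := D.mul_mem h1 ha
    have e1 : (m : L) * a * (m : L)⁻¹ * (a : L)⁻¹ * a = ((m * a * m⁻¹ : M) : L) := by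
      push_cast
      group
    rwa [e1] at h2
  -- r ≤ b
  have hrb : r ≤ b := by
    have hn := hnorm _ (hZC t)
    have hlt : ∃ m : M, m ∉ (Cz M Z t).subgroupOf M := by
      by_contra hall
      push Not at hall
      have h1 : ψ t = 1 := hcen t (fun m hm => ((mem_Cz M Z t m).1
        (Subgroup.mem_subgroupOf.1 (hall ⟨m, hm⟩))).2)
      rw [h1] at hcyc
      rw [Subgroup.coe_one, Equiv.Perm.cycleFactorsFinset_one, Finset.card_empty] at hcyc
      omega
    obtain ⟨m, hm⟩ := hlt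
    have : Fact r.Prime := ⟨hr⟩
    have h2 : orderOf (QuotientGroup.mk m : M ⧸ (Cz M Z t).subgroupOf M) = r := by
      refine orderOf_eq_prime ?_ ?_
      · rw [← QuotientGroup.mk_pow, QuotientGroup.eq_one_iff, Subgroup.mem_subgroupOf]
        exact hZC t (hrZ m m.2)
      · intro h
        exact hm ((QuotientGroup.eq_one_iff m).1 h)
    have h3 : r ∣ Nat.card (M ⧸ (Cz M Z t).subgroupOf M) := by
      rw [← h2]
      exact orderOf_dvd_natCard _
    have h4 : Nat.card (M ⧸ (Cz M Z t).subgroupOf M) ≤ b := hindex t rfl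
    exact (Nat.le_of_dvd Nat.card_pos h3).trans h4
  -- the intersection
  let C : Subgroup L := Cz M Z t ⊓ Cz M Z (x * t * x⁻¹)
  have hZCC : Z ≤ C := le_inf (hZC _) (hZC _)
  let D : Subgroup M := C.subgroupOf M
  have hDn : D.Normal := hnorm C hZCC
  have hDi : Nat.card (M ⧸ D) ≤ b * b := by
    have h1 : D = (Cz M Z t).subgroupOf M ⊓ (Cz M Z (x * t * x⁻¹)).subgroupOf M := rfl
    have h2 : D.index ≤ b * b := by
      rw [h1]
      exact (Subgroup.index_inf_le).trans (Nat.mul_le_mul (hindex t rfl) (hindex _ hconj.symm))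
    exact h2
  let y : L := x * t * x⁻¹ * t⁻¹
  -- y centralises C modulo Z
  let π := QuotientGroup.mk' Z
  have hπ : ∀ a : L, π a = 1 ↔ a ∈ Z := fun a => QuotientGroup.eq_one_iff a
  have hcomm_iff : ∀ u a : L, u * a * u⁻¹ * a⁻¹ ∈ Z ↔ π u * π a = π a * π u := by
    intro u a
    rw [← hπ, map_mul, map_mul, map_mul, map_inv, map_inv, mul_inv_eq_one, mul_inv_eq_iff_eq_mul]
  have hyC : ∀ c ∈ C, π y * π c = π c * π y := by
    intro c hc
    have h1 : Commute (π t) (π c) := (hcomm_iff t c).1 ((mem_Cz M Z t c).1 hc.1).2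
    have h2 : Commute (π (x * t * x⁻¹)) (π c) := (hcomm_iff _ c).1 ((mem_Cz M Z _ c).1 hc.2).2
    have h3 : Commute (π (x * t * x⁻¹) * (π t)⁻¹) (π c) := h2.mul_left h1.inv_left
    have e1 : π y = π (x * t * x⁻¹) * (π t)⁻¹ := by
      change π (x * t * x⁻¹ * t⁻¹) = _
      rw [map_mul, map_inv]
    rw [e1]
    exact h3
  -- action on the cosets
  have hstab : ∀ w : L, (∀ c ∈ C, π w * π c = π c * π w) →
      D ≤ D.comap (MulAut.conjNormal w : MulAut M).toMonoidHom := by
    intro w hw c hc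
    rw [Subgroup.mem_comap]
    have hc' : (c : L) ∈ C := Subgroup.mem_subgroupOf.1 hc
    change ((MulAut.conjNormal w : MulAut M) c : L) ∈ C
    rw [MulAut.conjNormal_apply]
    have h1 := hZCC ((hcomm_iff w c).2 (hw c hc'))
    have h2 := C.mul_mem h1 hc'
    rwa [inv_mul_cancel_right] at h2
  have hyC' : ∀ c ∈ C, π y⁻¹ * π c = π c * π y⁻¹ := by
    intro c hc
    have h1 : Commute (π y) (π c) := hyC c hc
    rw [map_inv]
    exact h1.inv_left
  let F : ∀ w : L, (∀ c ∈ C, π w * π c = π c * π w) → (M ⧸ D →* M ⧸ D) := fun w hw =>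
    QuotientGroup.map D D (MulAut.conjNormal w : MulAut M).toMonoidHom (hstab w hw)
  have hF : ∀ w hw (m : M), F w hw (QuotientGroup.mk m)
      = QuotientGroup.mk ((MulAut.conjNormal w : MulAut M) m) := fun w hw m => rfl
  let σ : Perm (M ⧸ D) :=
    { toFun := F y hyC
      invFun := F y⁻¹ hyC'
      left_inv := by
        intro q
        induction q using QuotientGroup.induction_on with
        | H m =>
          change (QuotientGroup.mk ((MulAut.conjNormal y⁻¹ : MulAut M)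
            ((MulAut.conjNormal y : MulAut M) m)) : M ⧸ D) = QuotientGroup.mk m
          rw [← MulAut.mul_apply, ← map_mul, inv_mul_cancel, map_one]
          rfl
      right_inv := by
        intro q
        induction q using QuotientGroup.induction_on with
        | H m =>
          change (QuotientGroup.mk ((MulAut.conjNormal y : MulAut M)
            ((MulAut.conjNormal y⁻¹ : MulAut M) m)) : M ⧸ D) = QuotientGroup.mk m
          rw [← MulAut.mul_apply, ← map_mul, mul_inv_cancel, map_one]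
          rfl }
  have hσ1 : ∀ m : M, σ (QuotientGroup.mk m) = QuotientGroup.mk ((MulAut.conjNormal y : MulAut M) m) :=
    fun m => rfl
  have hσ : ∀ (k : ℕ) (m : M), (σ ^ k) (QuotientGroup.mk m)
      = QuotientGroup.mk ((MulAut.conjNormal (y ^ k) : MulAut M) m) := by
    intro k
    induction k with
    | zero =>
      intro m
      rw [pow_zero, pow_zero, Equiv.Perm.one_apply, map_one]
      rfl
    | succ k ih =>
      intro m
      rw [pow_succ', Equiv.Perm.mul_apply, ih, hσ1, pow_succ' y k,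
        map_mul (MulAut.conjNormal : L →* MulAut M) y (y ^ k), MulAut.mul_apply]
  have hfinQ : Finite (M ⧸ D) := inferInstance
  let n : ℕ := Nat.card (M ⧸ D)
  have hσN : σ ^ (n.factorial) = 1 := by
    have h1 : Nat.card (Perm (M ⧸ D)) = n.factorial := Nat.card_perm
    rw [← h1]
    exact pow_card_eq_one'
  -- y ^ (n! r) centralises M modulo Z
  have hkey : ∀ m ∈ M, y ^ (n.factorial * r) * m * (y ^ (n.factorial * r))⁻¹ * m⁻¹ ∈ Z := by
    intro m hm
    rw [hcomm_iff]
    have h1 := hσ n.factorial ⟨m, hm⟩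
    rw [hσN, Equiv.Perm.one_apply] at h1
    have h2 := QuotientGroup.eq.1 h1
    have h3 : m⁻¹ * (y ^ n.factorial * m * (y ^ n.factorial)⁻¹) ∈ C := by
      have h4 := Subgroup.mem_subgroupOf.1 h2
      have e1 : (((⟨m, hm⟩ : M)⁻¹ * (MulAut.conjNormal (y ^ n.factorial) : MulAut M) ⟨m, hm⟩ : M) : L)
          = m⁻¹ * (y ^ n.factorial * m * (y ^ n.factorial)⁻¹) := by
        rw [Subgroup.coe_mul, MulAut.conjNormal_apply]
        rfl
      rwa [e1] at h4
    set c : L := m⁻¹ * (y ^ n.factorial * m * (y ^ n.factorial)⁻¹) with hcdef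
    set Y : L := y ^ n.factorial with hY
    have hYm : π Y * π m = π m * π c * π Y := by
      rw [← map_mul, ← map_mul, ← map_mul, hcdef]
      congr 1
      group
    have hYc : Commute (π Y) (π c) := by
      rw [hY, map_pow]
      exact Commute.pow_left (hyC c h3) _
    have hcr : (π c) ^ r = 1 := by
      rw [← map_pow, hπ]
      exact hrZ c ((hle t) h3.1)
    have hind : ∀ k : ℕ, π Y ^ k * π m = π m * π c ^ k * π Y ^ k := by
      intro k
      induction k with
      | zero => rw [pow_zero, pow_zero, one_mul, mul_one, mul_one]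
      | succ k ih =>
        rw [pow_succ', mul_assoc, ih, ← mul_assoc, ← mul_assoc, hYm, mul_assoc (π m * π c),
          (hYc.pow_right k).eq, pow_succ']
        simp only [mul_assoc]
    have h5 := hind r
    rw [hcr, mul_one, ← map_pow, hY, ← pow_mul] at h5
    exact h5
  have hψy := hcen _ hkey
  rw [map_pow] at hψy
  have h6 : (g * (ψ t : Perm Ω) * g⁻¹ * (ψ t : Perm Ω)⁻¹) ^ (n.factorial * r) = 1 := by
    have h7 : ((ψ y : alternatingGroup Ω) : Perm Ω) = g * (ψ t : Perm Ω) * g⁻¹ * (ψ t : Perm Ω)⁻¹ := by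
      change ((ψ (x * t * x⁻¹ * t⁻¹) : alternatingGroup Ω) : Perm Ω) = _
      rw [map_mul, map_mul, map_mul, map_inv, map_inv, hx]
      rfl
    rw [← h7, ← Subgroup.coe_pow, hψy, Subgroup.coe_one]
  have h8 := hgN _ h6
  have hb2 : b ≤ b * b := Nat.le_mul_of_pos_left b hb
  rcases (Nat.Prime.dvd_mul hs).1 h8 with h9 | h9
  · have h10 := (Nat.Prime.dvd_factorial hs).1 h9
    have h11 : n ≤ b * b := hDi
    omega
  · have h10 := Nat.le_of_dvd hr.pos h9
    omega

end Pool.Agent.H87.NY.BG
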