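import Pool.Agent.H11.NY.Targets

/-!
# Board ny_modules, PB
-/

set_option autoImplicit false

open Equiv (Perm)

namespace Pool.Agent.H87.NY.PB

open Pool.Agent.H11.NY

theorem closure_pair {L : Type} [Group L] [Finite L] {a h : L} (hc : a * h = h * a) {t : L}
    (ht : t ∈ Subgroup.closure ({a, h} : Set L)) : ∃ i j : ℕ, t = a ^ i * h ^ j := by
  have hcm : Commute a h := hc
  have hmul : ∀ i j i' j' : ℕ, (a ^ i * h ^ j) * (a ^ i' * h ^ j') = a ^ (i + i') * h ^ (j + j') := by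
    intro i j i' j'
    rw [pow_add, pow_add, mul_assoc, mul_assoc]
    congr 1
    rw [← mul_assoc, ← mul_assoc, (hcm.pow_pow i' j).eq]
  have hpow : ∀ (i j k : ℕ), (a ^ i * h ^ j) ^ k = a ^ (i * k) * h ^ (j * k) := by
    intro i j k
    rw [(hcm.pow_pow i j).mul_pow, ← pow_mul, ← pow_mul]
  refine Subgroup.closure_induction (p := fun t _ => ∃ i j : ℕ, t = a ^ i * h ^ j) ?_ ?_ ?_ ?_ ht
  · intro x hx
    rcases hx with rfl | hx
    · exact ⟨1, 0, by simp⟩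
    · rw [Set.mem_singleton_iff] at hx
      subst hx
      exact ⟨0, 1, by simp⟩
  · exact ⟨0, 0, by simp⟩
  · rintro x y _ _ ⟨i, j, rfl⟩ ⟨i', j', rfl⟩
    exact ⟨_, _, hmul i j i' j'⟩
  · rintro x _ ⟨i, j, rfl⟩
    refine ⟨i * (orderOf (a ^ i * h ^ j) - 1), j * (orderOf (a ^ i * h ^ j) - 1), ?_⟩
    rw [← hpow, inv_eq_iff_mul_eq_one, ← pow_succ', Nat.sub_add_cancel (orderOf_pos _),
      pow_orderOf_eq_one]

theorem cycles_card {Ω : Type} [Fintype Ω] [DecidableEq Ω] (σ : Perm Ω) {N s : ℕ} (hN : 0 < N)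
    (hσ : ∃ m : ℕ, 0 < m ∧ m ≤ N ∧ σ ^ m = 1) (hs : s * N ≤ σ.support.card) :
    s ≤ σ.cycleFactorsFinset.card := by
  obtain ⟨m, hm, hmN, hpow⟩ := hσ
  have h1 : σ.cycleType.sum ≤ Multiset.card σ.cycleType • N := by
    refine Multiset.sum_le_card_nsmul _ _ (fun x hx => ?_)
    have h2 := Equiv.Perm.dvd_of_mem_cycleType hx
    have h3 : orderOf σ ∣ m := orderOf_dvd_of_pow_eq_one hpow
    exact (Nat.le_of_dvd hm (h2.trans h3)).trans hmN
  rw [Equiv.Perm.sum_cycleType] at h1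
  have h4 : Multiset.card σ.cycleType = σ.cycleFactorsFinset.card := by
    rw [Equiv.Perm.cycleType_def, Multiset.card_map]
    rfl
  rw [h4, smul_eq_mul] at h1
  exact Nat.le_of_mul_le_mul_right (hs.trans h1) hN

theorem pf_pb : T_B1 → T_BG → T_AC → T_PB := by
  intro hB1 hBG hAC e
  obtain ⟨s, hs1, hs⟩ := Nat.exists_infinite_primes ((e ^ 6 + 1) * (e ^ 6 + 1) + 3)
  refine ⟨s * e ^ 2 + 6, ?_⟩
  intro L Ω _ _ _ _ ψ hψ hcomm hsolv K V _ _ _ _ _ ρ hirr M hM hMk hnS hmin hnc hfam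
  have hcard : 5 ≤ Fintype.card Ω := by
    obtain ⟨q, p, a, h, -, hP, -⟩ := hfam 2 Nat.prime_two
    obtain ⟨-, -, -, -, -, -, -, -, ha, -, hsup⟩ := hP
    have h1 := hsup 1 0 (by simpa using ha)
    have h2 := Finset.card_le_univ (ψ (a ^ 1 * h ^ 0) : Perm Ω).support
    omega
  obtain ⟨Z, r, hr, hZn, hZM, hZ, hcomZ, hrZ, hcen, hfaith⟩ :=
    hB1 L Ω ψ hcard hψ hcomm hsolv K V ρ hirr M hM hMk hnS hmin hnc
  obtain ⟨q, p, a, h, hqr, hP, hqK, hpK, hRel⟩ := hfam r hr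
  obtain ⟨hq, hq5, hqe, hp, hpe, haq, hah, hhp, ha1, hha, hsup⟩ := hP
  refine hAC L K V ρ hirr.1 M Z r hM hZM hr hZ hcomZ hrZ hcen e q p a h hq hp hqe hpe hqr hqK hpK
    haq ha1 hah hha hhp ?_ hRel
  intro t ht ht1
  obtain ⟨i, j, rfl⟩ := closure_pair hah ht
  have hcm : Commute a h := hah
  have hord : (a ^ i * h ^ j) ^ (q * p) = 1 := by
    rw [(hcm.pow_pow i j).mul_pow, ← pow_mul, ← pow_mul]
    have e1 : a ^ (i * (q * p)) = 1 := by
      rw [show i * (q * p) = q * (i * p) by ring, pow_mul, haq, one_pow]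
    have e2 : h ^ (j * (q * p)) = 1 := by
      rcases hhp with h1 | ⟨rfl, h1⟩
      · rw [show j * (q * p) = p * (j * q) by ring, pow_mul, h1, one_pow]
      · rw [show j * (p * p) = p * (p * j) by ring, pow_mul, h1, pow_mul, haq, one_pow]
    rw [e1, e2, one_mul]
  have he : 0 < e := by omega
  have hcyc : s ≤ (ψ (a ^ i * h ^ j) : Perm Ω).cycleFactorsFinset.card := by
    refine cycles_card _ (N := e ^ 2) (pow_pos he 2) ⟨q * p, Nat.mul_pos hq.pos hp.pos, ?_, ?_⟩ ?_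
    · rw [sq]
      exact Nat.mul_le_mul hqe hpe
    · rw [← Subgroup.coe_pow, ← map_pow, hord, map_one, Subgroup.coe_one]
    · have := hsup i j ht1
      omega
  have h3 := hBG L Ω ψ hψ M Z r hM hZn hZM hr hcomZ hrZ hfaith (e ^ 6 + 1) s (Nat.succ_pos _) hs
    (by omega) (by omega) (a ^ i * h ^ j) hcyc
  refine lt_of_le_of_lt (Nat.mul_le_mul_right _ (Nat.le_succ _)) h3

end Pool.Agent.H87.NY.PB
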